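import Pool.Agent.Lib.MP_5e7226_co.C8.DQS
import Pool.Agent.Lib.MP_5e7226_co.C8.T10.D4_004
import Pool.Agent.Lib.MP_5e7226_co.C8.T10.D4_006
import Pool.Agent.Lib.MP_5e7226_co.C8.T10.D4_011

set_option autoImplicit false
set_option maxRecDepth 100000
set_option linter.all false

namespace Pool.Agent.Lib.MP_5e7226_co.C8

theorem rootT10 : RootOk 10 1024 [] [(1365, 967, -534), (1348, 749, 77), (1022, 974, -649), (1115, 560, -129)] :=
  ⟨good_root (K := TF.sT10_4_53.K) (F := TF.sT10_4_53.F) (TF.good_of_gi (DQ.Dq.gq TF.gT10_4_53)) (by decide +kernel) (by decide +kernel), ⟨good_root (K := TF.sT10_4_65.K) (F := TF.sT10_4_65.F) (TF.good_of_gi (DQ.Dq.gq TF.gT10_4_65)) (by decide +kernel) (by decide +kernel), ⟨good_root (K := TF.sT10_4_66.K) (F := TF.sT10_4_66.F) (TF.good_of_gi (DQ.Dq.gq TF.gT10_4_66)) (by decide +kernel) (by decide +kernel), ⟨good_root (K := TF.sT10_4_69.K) (F := TF.sT10_4_69.F) (TF.good_of_gi (DQ.Dq.gq TF.gT10_4_69)) (by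 decide +kernel) (by decide +kernel), good_root (K := TF.sT10_4_70.K) (F := TF.sT10_4_70.F) (TF.good_of_gi (DQ.Dq.gq TF.gT10_4_70)) (by decide +kernel) (by decide +kernel)⟩⟩⟩⟩

theorem illumT10 : ∀ L, SimMax L → Illum L 10 := root_final (by norm_num) rootT10

end Pool.Agent.Lib.MP_5e7226_co.C8
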